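import Pool.Agent.Q30.NL.Zeta

set_option autoImplicit false

/-!
MP_56b8f5_nt. The asymptotic formula for the eighth moment of the Riemann zeta function on the critical line is equivalent to
the same formula on the lines `Re s = 1/2 + δ(T)`, for every function `δ(T) ≥ 0` with `δ(T) log T → 0`.
-/

open Filter Topology MeasureTheory

namespace Pool.Agent.Results.MP_56b8f5_nt.NearCriticalLine

/-- the eighth moment `M_4(T)` -/
noncomputable def M4 (T : ℝ) : ℝ := 1 / T * ∫ t in (0 : ℝ)..T, ‖riemannZeta (1 / 2 + t * Complex.I)‖ ^ 8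

/-- the arithmetic factor `a_4` -/
noncomputable def a4 : ℝ := ∏' p : Nat.Primes, ((1 - 1 / (p : ℝ)) ^ 16 *
  ∑' m : ℕ, ((m + 3).choose m : ℝ) ^ 2 * (1 / (p : ℝ)) ^ m)

/-- the constant of the problem, `24024 a_4 / 16!` -/
noncomputable def C4 : ℝ := 24024 * a4 / (Nat.factorial 16 : ℝ)

/-- the question: `M_4(T) ~ C4 (log T)^16` -/
def Q1 : Prop := Tendsto (fun T => M4 T / (C4 * Real.log T ^ 16)) atTop (𝓝 1)

/-- the integral of `|ζ(1/2 + δ + it)|^8` over `a T ≤ t ≤ b T` -/
noncomputable def window (δ T a b : ℝ) : ℝ := ∫ t in (a * T)..(b * T), ‖riemannZeta (1 / 2 + δ + t * Complex.I)‖ ^ 8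

/-- `δ(T) ≥ 0` and `δ(T) log T → 0` -/
def Shift (δ : ℝ → ℝ) : Prop := (∀ T, 0 ≤ δ T) ∧ Tendsto (fun T => δ T * Real.log T) atTop (𝓝 0)

/-- the asymptotic formula with the constant `c` on the lines `Re s = 1/2 + δ(T)`, in all windows `[a T, b T]` -/
def OnLines (δ : ℝ → ℝ) (c : ℝ) : Prop := ∀ a b : ℝ, 0 < a → a < b →
  Tendsto (fun T => window (δ T) T a b / (T * Real.log T ^ 16)) atTop (𝓝 (c * (b - a)))

/-- the asymptotic formula of the question on the lines `Re s = 1/2 + δ(T)`: the integral of `|ζ|^8` over `[a T, b T]`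
is asymptotic to `C4 (b - a) T (log T)^16` -/
def Q1OnLines (δ : ℝ → ℝ) : Prop := ∀ a b : ℝ, 0 < a → a < b →
  Tendsto (fun T => window (δ T) T a b / (C4 * (b - a) * T * Real.log T ^ 16)) atTop (𝓝 1)

lemma base (δ : ℝ → ℝ) (h : Shift δ) (c : ℝ) :
    Tendsto (fun T => M4 T / Real.log T ^ 16) atTop (𝓝 c) ↔ OnLines δ c := by
  have h1 := Pool.Agent.Q30.NL.line_iff (β := ((8 : ℕ) : ℝ)) (by norm_num) 16 c ⟨h.1, h.2⟩
  have e1 : ∀ x a b : ℝ, Pool.Agent.Results.MP_6a632e_nt.NearbyLines.M ((8 : ℕ) : ℝ) x a b =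
      ∫ t in a..b, ‖riemannZeta (1 / 2 + x + t * Complex.I)‖ ^ 8 := by
    intro x a b
    unfold Pool.Agent.Results.MP_6a632e_nt.NearbyLines.M
    simp only [Real.rpow_natCast, mul_comm Complex.I]
  have e2 : ∀ T : ℝ, M4 T = 1 / T * Pool.Agent.Results.MP_6a632e_nt.NearbyLines.M ((8 : ℕ) : ℝ) 0 0 T := by
    intro T
    rw [e1]
    unfold M4
    simp only [Complex.ofReal_zero, add_zero]
  have e3 : (fun T => M4 T / Real.log T ^ 16) = fun T =>
      1 / T * Pool.Agent.Results.MP_6a632e_nt.NearbyLines.M ((8 : ℕ) : ℝ) 0 0 T / Real.log T ^ 16 := by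
    funext T
    rw [e2]
  rw [e3, h1]
  unfold OnLines Pool.Agent.Q30.NL.Win Pool.Agent.Q30.NL.g window
  simp only [e1]

/-- the hand-in -/
theorem result (δ : ℝ → ℝ) (h : Shift δ) :
    (∀ c : ℝ, Tendsto (fun T => M4 T / Real.log T ^ 16) atTop (𝓝 c) ↔ OnLines δ c) ∧
    (Q1 ↔ Q1OnLines δ) := by
  refine ⟨base δ h, ?_⟩
  rcases eq_or_ne C4 0 with h0 | h0
  · constructor
    · intro hq
      unfold Q1 at hq
      simp only [h0, zero_mul, div_zero] at hq
      exact absurd (tendsto_nhds_unique hq tendsto_const_nhds) (by norm_num)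
    · intro hq
      have hq1 := hq 1 2 one_pos (by norm_num)
      simp only [h0, zero_mul, div_zero] at hq1
      exact absurd (tendsto_nhds_unique hq1 tendsto_const_nhds) (by norm_num)
  · have e1 : Q1 ↔ Tendsto (fun T => M4 T / Real.log T ^ 16) atTop (𝓝 C4) := by
      unfold Q1
      constructor
      · intro hq
        have h1 := hq.const_mul C4
        rw [mul_one] at h1
        refine h1.congr fun T => ?_
        rw [← mul_div_assoc, mul_div_mul_left _ _ h0]
      · intro hq
        have h1 := hq.div_const C4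
        rw [div_self h0] at h1
        refine h1.congr fun T => ?_
        rw [div_div, mul_comm]
    have e2 : Q1OnLines δ ↔ OnLines δ C4 := by
      unfold Q1OnLines OnLines
      refine forall_congr' fun a => forall_congr' fun b => forall_congr' fun ha => forall_congr' fun hab => ?_
      have hba : b - a ≠ 0 := by
        have := sub_pos.2 hab
        exact this.ne'
      constructor
      · intro hq
        have h1 := hq.const_mul (C4 * (b - a))
        rw [mul_one] at h1
        refine h1.congr fun T => ?_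
        rw [← mul_div_assoc, mul_assoc (C4 * (b - a)), mul_div_mul_left _ _ (mul_ne_zero h0 hba)]
      · intro hq
        have h1 := hq.div_const (C4 * (b - a))
        rw [div_self (mul_ne_zero h0 hba)] at h1
        refine h1.congr fun T => ?_
        rw [div_div, mul_comm (T * Real.log T ^ 16), mul_assoc (C4 * (b - a))]
    rw [e1, e2]
    exact base δ h C4

end Pool.Agent.Results.MP_56b8f5_nt.NearCriticalLine
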