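import Mathlib
import Pool.Agent.Q288.MZ.Cmp

set_option autoImplicit false

/-!
MP_56b8f5_nt. The eighth moment of `ζ` and the points at which `ζ(1/2 + it)` lies on three lines through the origin.
-/

open Filter Topology Set MeasureTheory

namespace Pool.Agent.Results.MP_56b8f5_nt.ThreeLines

/-- The value `ζ(1/2 + it)`. -/
noncomputable def z (t : ℝ) : ℂ := riemannZeta (1 / 2 + t * Complex.I)

/-- The heights `t > 100` at which `ζ(1/2 + it)` is a nonzero point of one of the `N` lines `u e^{πij/N} ℝ`. -/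
def Pts (u : ℂ) (N : ℕ) : Set ℝ :=
  {t | 100 < t ∧ ∃ (j : ℕ) (r : ℝ), r ≠ 0 ∧ z t = r * (u * Complex.exp (Real.pi * Complex.I * j / N))}

/-- The sum of `|ζ(1/2 + it)|^8` over the heights `A < t ≤ B` in `Pts u N`. -/
noncomputable def Sum (N : ℕ) (u : ℂ) (A B : ℝ) : ℝ := ∑ᶠ t ∈ Pts u N ∩ Ioc A B, ‖z t‖ ^ 8

/-- The factor `X(s) = χ(1 - s)` of the functional equation `ζ(1 - s) = X(s) ζ(s)`. -/
noncomputable def X (s : ℂ) : ℂ :=
  2 * (2 * (Real.pi : ℂ)) ^ (-s) * Complex.Gamma s * Complex.cos (Real.pi * s / 2)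

/-- The logarithmic derivative of `X` at `1/2 + it` (a real number, close to `log (t/2π)`). -/
noncomputable def lam (t : ℝ) : ℝ := (logDeriv X (1 / 2 + t * Complex.I)).re

/-- The weighted sum of `|ζ(1/2 + it)|^8` over the heights `t ≤ T` in `Pts u N`. -/
noncomputable def WSum (N : ℕ) (u : ℂ) (T : ℝ) : ℝ :=
  2 * Real.pi / N * ∑ᶠ t ∈ Pts u N ∩ Iic T, ‖z t‖ ^ 8 / lam t

/-- The constant of the problem, `24024 a_4 / 16!`. -/
noncomputable def C4 : ℝ := 24024 * (∏' p : Nat.Primes, ((1 - 1 / (p : ℝ)) ^ 16 *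
    ∑' m : ℕ, ((m + 3).choose m : ℝ) ^ 2 * (1 / (p : ℝ)) ^ m)) / (Nat.factorial 16 : ℝ)

lemma few {u : ℂ} {N : ℕ} (hu : u ≠ 0) (hN : 3 ≤ N) (c : ℝ) :
    Tendsto (fun T => 1 / T * (∫ t in (0 : ℝ)..T, ‖z t‖ ^ 8) / Real.log T ^ 16) atTop (𝓝 c) ↔
      Tendsto (fun T => 1 / T * (2 * Real.pi / N * Sum N u 0 T) / Real.log T ^ 17) atTop (𝓝 c) := by
  have h := Pool.Agent.Q288.MZ.few_lines (k := 4) (N := N) hu (by norm_num) (by omega) (by omega) c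
  have e2 : (fun T : ℝ => (1 / T * (2 * Real.pi / N * ∑ᶠ t ∈ Pool.Agent.Q288.MZ.Pts u N ∩ Iic T,
      ‖Pool.Agent.Q288.MZ.z t‖ ^ (2 * 4))) / Real.log T ^ (4 ^ 2 + 1)) =
      fun T => 1 / T * (2 * Real.pi / N * Sum N u 0 T) / Real.log T ^ 17 := by
    funext T
    have e0 : Pool.Agent.Q288.MZ.Pts u N ∩ Iic T = Pts u N ∩ Ioc 0 T := by
      ext t
      constructor
      · rintro ⟨h2, h3⟩
        exact ⟨h2, by linarith [h2.1], h3⟩
      · rintro ⟨h2, h3, h4⟩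
        exact ⟨h2, h4⟩
    rw [e0]
    rfl
  rw [e2] at h
  exact h

theorem result :
    -- the sums are finite
    (∀ (u : ℂ) (N : ℕ) (A B : ℝ), u ≠ 0 → 1 ≤ N → (Pts u N ∩ Ioc A B).Finite) ∧
    -- unconditional comparison in dyadic intervals, at least three lines
    (∀ (u : ℂ) (N : ℕ) (ε : ℝ), u ≠ 0 → 3 ≤ N → 0 < ε → ε < 1 → ∀ᶠ T : ℝ in atTop,
        Sum N u T (2 * T) ≤ (N / (2 * Real.pi) + ε) *
          (Real.log T * ∫ t in ((1 - ε) * T)..((2 + ε) * T), ‖z t‖ ^ 8) ∧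
        (N / (2 * Real.pi) - ε) * (Real.log T * ∫ t in T..(2 * T), ‖z t‖ ^ 8) ≤
          Sum N u ((1 - ε) * T) ((2 + ε) * T)) ∧
    -- the limits, at least three lines
    (∀ (u : ℂ) (N : ℕ) (c : ℝ), u ≠ 0 → 3 ≤ N →
      (Tendsto (fun T => 1 / T * (∫ t in (0 : ℝ)..T, ‖z t‖ ^ 8) / Real.log T ^ 16) atTop (𝓝 c) ↔
        Tendsto (fun T => 1 / T * (2 * Real.pi / N * Sum N u 0 T) / Real.log T ^ 17) atTop (𝓝 c))) ∧
    -- Q1
    (∀ u : ℂ, u ≠ 0 →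
      (Tendsto (fun T => 1 / T * (∫ t in (0 : ℝ)..T, ‖z t‖ ^ 8) / (C4 * Real.log T ^ 16)) atTop (𝓝 1) ↔
        Tendsto (fun T => 1 / T * (2 * Real.pi / (3 : ℕ) * Sum 3 u 0 T) / (C4 * Real.log T ^ 17))
          atTop (𝓝 1))) ∧
    -- at least five lines: every normalisation
    (∀ (u : ℂ) (N : ℕ) (g : ℝ → ℝ) (c : ℝ), u ≠ 0 → 5 ≤ N →
      Tendsto g atTop atTop → (∀ R : ℝ, Tendsto (fun T => g (T + R) / g T) atTop (𝓝 1)) →
      (∃ K : ℝ, ∀ᶠ T : ℝ in atTop, g (3 * T / 2) ≤ K * g T) →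
      (Tendsto (fun T => (∫ t in (0 : ℝ)..T, ‖z t‖ ^ 8) / g T) atTop (𝓝 c) ↔
        Tendsto (fun T => WSum N u T / g T) atTop (𝓝 c))) ∧
    (∀ t : ℝ, 100 < t → |lam t - Real.log (t / (2 * Real.pi))| ≤ 14 / t) := by
  refine ⟨fun u N A B hu hN => (Pool.Agent.Q288.MZ.pts_finite hu hN B).subset
      (inter_subset_inter_right _ fun _ h => h.2),
    fun u N ε hu hN h0 h1 => ?_,
    fun u N c hu hN => few hu hN c, fun u hu => ?_,
    fun u N g c hu hN g1 g2 g3 =>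
      Pool.Agent.Q288.MZ.many_lines (k := 4) (N := N) hu (by norm_num) (by omega) g1 g2 g3,
    fun t ht => (Pool.Agent.W188.QS.a_line.1 t (by linarith)).2.1⟩
  · filter_upwards [Pool.Agent.Q288.MZ.cmp_upper (k := 4) (N := N) hu (by norm_num) (by omega) (by omega) h0 h1,
      Pool.Agent.Q288.MZ.cmp_lower (k := 4) (N := N) hu (by norm_num) (by omega) (by omega) h0 h1] with T hT1 hT2
    exact ⟨hT1, hT2⟩
  · exact Pool.Agent.Q288.MZ.const_iff C4 (L₁ := fun T => Real.log T ^ 16) (L₂ := fun T => Real.log T ^ 17)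
      (few hu (le_refl 3) _)

end Pool.Agent.Results.MP_56b8f5_nt.ThreeLines
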